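import Mathlib

/-! Excited random walk on `ℤ` in an i.i.d. cookie environment. Cookie number `n ≥ 1` has index
`n - 1`. -/

namespace Pool.Agent.R957.Cookie

open MeasureTheory

open Classical in
/-- One step. The state is the current site and the number of earlier visits to every site. At a
site `x` visited `c` times before, the walk steps to `x + 1` when `U (x, c) < om x c`. -/
noncomputable def nxt (om : ℤ → ℕ → unitInterval) (U : ℤ × ℕ → unitInterval)
    (s : ℤ × (ℤ → ℕ)) : ℤ × (ℤ → ℕ) :=
  (if U (s.1, s.2 s.1) < om s.1 (s.2 s.1) then s.1 + 1 else s.1 - 1,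
    Function.update s.2 s.1 (s.2 s.1 + 1))

/-- the state after `n` steps -/
noncomputable def st (om : ℤ → ℕ → unitInterval) (U : ℤ × ℕ → unitInterval) :
    ℕ → ℤ × (ℤ → ℕ)
  | 0 => (0, fun _ => 0)
  | n + 1 => nxt om U (st om U n)

/-- position of the excited random walk after `n` steps -/
noncomputable def walk (om : ℤ → ℕ → unitInterval) (U : ℤ × ℕ → unitInterval) (n : ℕ) : ℤ :=
  (st om U n).1

/-- annealed law: i.i.d. stacks of law `eta`, and independent uniform variables -/
noncomputable def law (eta : Measure (ℕ → unitInterval)) [IsProbabilityMeasure eta] :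
    Measure ((ℤ → ℕ → unitInterval) × (ℤ × ℕ → unitInterval)) :=
  (Measure.infinitePi fun _ : ℤ => eta).prod
    (Measure.infinitePi fun _ : ℤ × ℕ => (volume : Measure unitInterval))

/-- total drift of a stack -/
noncomputable def drift (s : ℕ → unitInterval) : ℝ := ∑' i, (2 * (s i : ℝ) - 1)

end Pool.Agent.R957.Cookie
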