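import Mathlib
import Pool.Agent.R957.Cookie.Defs

namespace Pool.Agent.R957.Cookie

open MeasureTheory Filter
open scoped Topology

variable (om : ℤ → ℕ → unitInterval) (U : ℤ × ℕ → unitInterval)

/-- visit counts -/
noncomputable def cnt (n : ℕ) : ℤ → ℕ := (st om U n).2

lemma cnt_succ (n : ℕ) : cnt om U (n + 1)
    = Function.update (cnt om U n) (walk om U n) (cnt om U n (walk om U n) + 1) := rfl

lemma walk_succ (n : ℕ) [Decidable (U (walk om U n, cnt om U n (walk om U n))
      < om (walk om U n) (cnt om U n (walk om U n)))] : walk om U (n + 1) =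
    if U (walk om U n, cnt om U n (walk om U n)) < om (walk om U n) (cnt om U n (walk om U n))
      then walk om U n + 1 else walk om U n - 1 := by
  change (nxt om U (st om U n)).1 = _
  unfold nxt
  simp only [walk, cnt]

lemma walk_step (n : ℕ) : walk om U (n + 1) = walk om U n + 1 ∨ walk om U (n + 1) = walk om U n - 1 := by
  classical
  rw [walk_succ]
  split_ifs
  · exact Or.inl rfl
  · exact Or.inr rfl

lemma sum_cnt (F : Finset ℤ) (n : ℕ) : ∑ x ∈ F, cnt om U n x ≤ n := by
  induction n with
  | zero => simp [cnt, st]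
  | succ n ih =>
    rw [cnt_succ]
    calc ∑ x ∈ F, Function.update (cnt om U n) (walk om U n) (cnt om U n (walk om U n) + 1) x
        ≤ ∑ x ∈ F, (cnt om U n x + if x = walk om U n then 1 else 0) := by
          apply Finset.sum_le_sum
          intro x _
          rw [Function.update_apply]
          split_ifs with h
          · rw [h]
          · simp
      _ = ∑ x ∈ F, cnt om U n x + ∑ x ∈ F, (if x = walk om U n then 1 else 0) :=
          Finset.sum_add_distrib
      _ ≤ n + 1 := by
          apply add_le_add ih
          rw [Finset.sum_ite_eq']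
          split_ifs <;> simp

lemma cnt_mono : Monotone (cnt om U) := by
  apply monotone_nat_of_le_succ
  intro n x
  rw [cnt_succ, Function.update_apply]
  split_ifs with h
  · rw [h]; exact Nat.le_succ _
  · exact le_refl _

lemma cross_right (n : ℕ) : ∀ x : ℤ, 0 ≤ x → x < walk om U n →
    ∃ i < n, walk om U i = x ∧ walk om U (i + 1) = x + 1 := by
  induction n with
  | zero => intro x h0 h1; simp [walk, st] at h1; omega
  | succ n ih =>
    intro x h0 h1
    by_cases h : x < walk om U n
    · obtain ⟨i, hi, h2⟩ := ih x h0 h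
      exact ⟨i, by omega, h2⟩
    · rcases walk_step om U n with h2 | h2
      · refine ⟨n, by omega, ?_, ?_⟩ <;> omega
      · omega

lemma cross_left (n : ℕ) : ∀ x : ℤ, x ≤ 0 → walk om U n < x →
    ∃ i < n, walk om U i = x ∧ walk om U (i + 1) = x - 1 := by
  induction n with
  | zero => intro x h0 h1; simp [walk, st] at h1; omega
  | succ n ih =>
    intro x h0 h1
    by_cases h : walk om U n < x
    · obtain ⟨i, hi, h2⟩ := ih x h0 h
      exact ⟨i, by omega, h2⟩
    · rcases walk_step om U n with h2 | h2
      · omega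
      · refine ⟨n, by omega, ?_, ?_⟩ <;> omega

/-- number of `j < K` such that the first `j + 1` cookies all equal `a` -/
noncomputable def pre (a : unitInterval) (K : ℕ) (s : ℕ → unitInterval) : ℕ := by
  classical exact ((Finset.range K).filter fun j => ∀ i ≤ j, s i = a).card

lemma pre_le (a : unitInterval) (K : ℕ) (s : ℕ → unitInterval) (c : ℕ) (hc : s c ≠ a) :
    pre a K s ≤ c := by
  classical
  unfold pre
  calc ((Finset.range K).filter fun j => ∀ i ≤ j, s i = a).card ≤ (Finset.range c).card := by
        apply Finset.card_le_card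
        intro j hj
        rw [Finset.mem_filter] at hj
        rw [Finset.mem_range]
        by_contra hcon
        exact hc (hj.2 c (not_lt.1 hcon))
    _ = c := Finset.card_range c

lemma cnt_ge_right (n K : ℕ) (x : ℤ) (h0 : 0 ≤ x) (h1 : x < walk om U n) :
    pre 0 K (om x) ≤ cnt om U n x := by
  classical
  obtain ⟨i, hi, h2, h3⟩ := cross_right om U n x h0 h1
  have h4 : U (x, cnt om U i x) < om x (cnt om U i x) := by
    by_contra hcon
    rw [walk_succ, h2, if_neg hcon] at h3
    omega
  have h5 : om x (cnt om U i x) ≠ 0 := by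
    intro h6
    rw [h6] at h4
    exact absurd h4 (not_lt.2 (unitInterval.nonneg' ))
  exact (pre_le 0 K (om x) _ h5).trans (cnt_mono om U hi.le x)

lemma cnt_ge_left (hU : ∀ a, U a < 1) (n K : ℕ) (x : ℤ) (h0 : x ≤ 0) (h1 : walk om U n < x) :
    pre 1 K (om x) ≤ cnt om U n x := by
  classical
  obtain ⟨i, hi, h2, h3⟩ := cross_left om U n x h0 h1
  have h4 : ¬ U (x, cnt om U i x) < om x (cnt om U i x) := by
    intro hcon
    rw [walk_succ, h2, if_pos hcon] at h3
    omega
  have h5 : om x (cnt om U i x) ≠ 1 := by
    intro h6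
    rw [h6] at h4
    exact h4 (hU _)
  exact (pre_le 1 K (om x) _ h5).trans (cnt_mono om U hi.le x)

lemma sum_right (n K m : ℕ) (h : (m : ℤ) ≤ walk om U n) :
    ∑ i ∈ Finset.range m, pre 0 K (om (i : ℤ)) ≤ n := by
  classical
  calc ∑ i ∈ Finset.range m, pre 0 K (om (i : ℤ))
      ≤ ∑ i ∈ Finset.range m, cnt om U n (i : ℤ) := by
        apply Finset.sum_le_sum
        intro i hi
        have := Finset.mem_range.1 hi
        exact cnt_ge_right om U n K i (by omega) (by omega)
    _ = ∑ x ∈ (Finset.range m).map Nat.castEmbedding, cnt om U n x := by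
        rw [Finset.sum_map]; rfl
    _ ≤ n := sum_cnt om U _ n

lemma sum_left (hU : ∀ a, U a < 1) (n K m : ℕ) (h : walk om U n ≤ -(m : ℤ)) :
    ∑ i ∈ Finset.range m, pre 1 K (om (-(i : ℤ))) ≤ n := by
  classical
  have hinj : Function.Injective fun i : ℕ => -(i : ℤ) := by
    intro a b hab
    simp only at hab
    omega
  calc ∑ i ∈ Finset.range m, pre 1 K (om (-(i : ℤ)))
      ≤ ∑ i ∈ Finset.range m, cnt om U n (-(i : ℤ)) := by
        apply Finset.sum_le_sum
        intro i hi
        have := Finset.mem_range.1 hi
        exact cnt_ge_left om U hU n K _ (by omega) (by omega)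
    _ = ∑ x ∈ (Finset.range m).map ⟨_, hinj⟩, cnt om U n x := by
        rw [Finset.sum_map]; rfl
    _ ≤ n := sum_cnt om U _ n

end Pool.Agent.R957.Cookie
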