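import Mathlib
import Pool.Agent.R957.Cookie.Det

namespace Pool.Agent.R957.Cookie

open MeasureTheory Filter ProbabilityTheory
open scoped Topology

lemma pre_real (a : unitInterval) (K : ℕ) (s : ℕ → unitInterval) : (pre a K s : ℝ)
    = ∑ j ∈ Finset.range K, Set.indicator {s : ℕ → unitInterval | ∀ i ≤ j, s i = a} (fun _ => (1 : ℝ)) s := by
  classical
  unfold pre
  rw [Finset.card_filter]
  push_cast
  apply Finset.sum_congr rfl
  intro j _
  rw [Set.indicator_apply]
  rfl

lemma meas_set (a : unitInterval) (j : ℕ) :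
    MeasurableSet {s : ℕ → unitInterval | ∀ i ≤ j, s i = a} := by
  have : {s : ℕ → unitInterval | ∀ i ≤ j, s i = a} = ⋂ i : ℕ, ⋂ (_ : i ≤ j), {s | s i = a} := by
    ext s; simp
  rw [this]
  refine MeasurableSet.iInter fun i => MeasurableSet.iInter fun _ => ?_
  exact measurableSet_eq_fun (measurable_pi_apply i) measurable_const

lemma meas_pre (a : unitInterval) (K : ℕ) : Measurable fun s : ℕ → unitInterval => (pre a K s : ℝ) := by
  simp_rw [pre_real]
  exact Finset.measurable_sum _ fun j _ => measurable_const.indicator (meas_set a j)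

lemma pre_bound (a : unitInterval) (K : ℕ) (s : ℕ → unitInterval) : (pre a K s : ℝ) ≤ K := by
  classical
  unfold pre
  exact_mod_cast (Finset.card_filter_le _ _).trans (Finset.card_range K).le

lemma int_pre (eta : Measure (ℕ → unitInterval)) [IsProbabilityMeasure eta] (a : unitInterval)
    (K : ℕ) : Integrable (fun s : ℕ → unitInterval => (pre a K s : ℝ)) eta := by
  refine Integrable.of_bound (meas_pre a K).aestronglyMeasurable (K : ℝ) (Eventually.of_forall fun s => ?_)
  rw [Real.norm_of_nonneg (Nat.cast_nonneg _)]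
  exact pre_bound a K s

/-- law of large numbers along an injective sequence of sites -/
lemma lln (eta : Measure (ℕ → unitInterval)) [IsProbabilityMeasure eta] (a : unitInterval)
    (K : ℕ) (e : ℕ → ℤ) (he : Function.Injective e) :
    ∀ᵐ om ∂(Measure.infinitePi fun _ : ℤ => eta),
      Tendsto (fun n : ℕ => (∑ i ∈ Finset.range n, (pre a K (om (e i)) : ℝ)) / n) atTop
        (𝓝 (∫ s, (pre a K s : ℝ) ∂eta)) := by
  set P := Measure.infinitePi fun _ : ℤ => eta
  have hmp : ∀ x : ℤ, MeasurePreserving (fun om : ℤ → ℕ → unitInterval => om x) P eta :=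
    fun x => measurePreserving_eval_infinitePi (fun _ : ℤ => eta) x
  set X : ℕ → (ℤ → ℕ → unitInterval) → ℝ := fun i om => (pre a K (om (e i)) : ℝ) with hX
  have hmX : ∀ i, Measurable (X i) := fun i => (meas_pre a K).comp (measurable_pi_apply _)
  have hint : Integrable (X 0) P := (hmp (e 0)).integrable_comp_of_integrable (int_pre eta a K)
  have hind : Pairwise (Function.onFun (fun f g => IndepFun f g P) X) := by
    intro i j hij
    have h := iIndepFun_infinitePi (P := fun _ : ℤ => eta)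
      (X := fun _ s => (pre a K s : ℝ)) (fun _ => meas_pre a K)
    exact h.indepFun (fun h2 => hij (he h2))
  have hid : ∀ i, IdentDistrib (X i) (X 0) P P := by
    intro i
    refine ⟨(hmX i).aemeasurable, (hmX 0).aemeasurable, ?_⟩
    have h1 : ∀ i, P.map (X i) = eta.map (fun s => (pre a K s : ℝ)) := by
      intro i
      have : X i = (fun s : ℕ → unitInterval => (pre a K s : ℝ)) ∘ (fun om => om (e i)) := rfl
      rw [this, ← Measure.map_map (meas_pre a K) (measurable_pi_apply _), (hmp (e i)).map_eq]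
    rw [h1, h1]
  have h := strong_law_ae_real X hint hind hid
  have hE : P[X 0] = ∫ s, (pre a K s : ℝ) ∂eta := by
    conv_rhs => rw [← (hmp (e 0)).map_eq]
    rw [integral_map (measurable_pi_apply _).aemeasurable (meas_pre a K).aestronglyMeasurable]
  rw [hE] at h
  exact h

/-- deterministic part: if averages of prefix lengths diverge on both sides the walk has speed 0 -/
lemma speed_zero (om : ℤ → ℕ → unitInterval) (U : ℤ × ℕ → unitInterval) (hU : ∀ a, U a < 1)
    (hR : ∀ C : ℝ, ∃ K : ℕ, ∀ᶠ n : ℕ in atTop,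
      C * n ≤ ∑ i ∈ Finset.range n, (pre 0 K (om (i : ℤ)) : ℝ))
    (hL : ∀ C : ℝ, ∃ K : ℕ, ∀ᶠ n : ℕ in atTop,
      C * n ≤ ∑ i ∈ Finset.range n, (pre 1 K (om (-(i : ℤ))) : ℝ)) :
    Tendsto (fun n : ℕ => (walk om U n : ℝ) / n) atTop (𝓝 0) := by
  have key : ∀ ε : ℝ, 0 < ε → ∀ᶠ n : ℕ in atTop, |(walk om U n : ℝ)| ≤ ε * n := by
    intro ε hε
    obtain ⟨K1, h1⟩ := hR (2 / ε)
    obtain ⟨K2, h2⟩ := hL (2 / ε)
    obtain ⟨N1, hN1⟩ := eventually_atTop.1 h1
    obtain ⟨N2, hN2⟩ := eventually_atTop.1 h2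
    have t1 : ∀ᶠ n : ℕ in atTop, ((N1 : ℝ) + N2 + 1) / ε ≤ n :=
      tendsto_natCast_atTop_atTop.eventually_ge_atTop _
    have t2 : ∀ᶠ n : ℕ in atTop, 2 / ε < n :=
      tendsto_natCast_atTop_atTop.eventually_gt_atTop _
    filter_upwards [t1, t2] with n hn hn2
    rw [div_le_iff₀ hε] at hn
    have hn0 : (0 : ℝ) < n := lt_trans (by positivity) hn2
    by_contra hcon
    push Not at hcon
    set m := ⌊ε * n⌋₊ with hm
    have hm1 : (m : ℝ) ≤ ε * n := Nat.floor_le (by positivity)
    have hm2 : ε * n < m + 1 := Nat.lt_floor_add_one _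
    have hmN : N1 + N2 ≤ m := by
      have : ((N1 + N2 : ℕ) : ℝ) < m + 1 := by push_cast; linarith
      have h3 : ((N1 + N2 : ℕ) : ℝ) < ((m + 1 : ℕ) : ℝ) := by push_cast at this ⊢; linarith
      have := Nat.cast_lt.1 h3
      omega
    have hbig : (n : ℝ) < 2 / ε * m := by
      have h3 : 2 / ε * (ε * n - 1) < 2 / ε * m := mul_lt_mul_of_pos_left (by linarith) (by positivity)
      have h4 : 2 / ε * (ε * n - 1) = 2 * n - 2 / ε := by field_simp
      linarith
    rcases lt_abs.1 hcon with h | h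
    · have h3 : (m : ℤ) ≤ walk om U n := by
        have h4 : ((m : ℤ) : ℝ) < ((walk om U n : ℤ) : ℝ) := by push_cast; linarith
        exact (Int.cast_lt.1 h4).le
      have h4 := sum_right om U n K1 m h3
      have h5 := hN1 m (by omega)
      have h6 : ((∑ i ∈ Finset.range m, pre 0 K1 (om (i : ℤ)) : ℕ) : ℝ) ≤ n := by exact_mod_cast h4
      push_cast at h6
      linarith
    · have h3 : walk om U n ≤ -(m : ℤ) := by
        have h4 : ((walk om U n : ℤ) : ℝ) < ((-(m : ℤ) : ℤ) : ℝ) := by push_cast; linarith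
        exact (Int.cast_lt.1 h4).le
      have h4 := sum_left om U hU n K2 m h3
      have h5 := hN2 m (by omega)
      have h6 : ((∑ i ∈ Finset.range m, pre 1 K2 (om (-(i : ℤ))) : ℕ) : ℝ) ≤ n := by exact_mod_cast h4
      push_cast at h6
      linarith
  rw [Metric.tendsto_atTop]
  intro ε hε
  obtain ⟨N, hN⟩ := eventually_atTop.1 (key (ε / 2) (by positivity))
  refine ⟨N + 1, fun n hn => ?_⟩
  have h1 := hN n (by omega)
  have hn0 : (0 : ℝ) < n := by
    have : 0 < n := by omega
    exact_mod_cast this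
  rw [Real.dist_eq, sub_zero, abs_div, abs_of_pos hn0, div_lt_iff₀ hn0]
  nlinarith

/-- if the averages converge to large limits, the divergence hypothesis holds -/
lemma from_lln (x : ℕ → ℕ → ℝ) (E : ℕ → ℝ) (hE : ∀ C : ℝ, ∃ K, C < E K)
    (hx : ∀ K, Tendsto (fun n : ℕ => (∑ i ∈ Finset.range n, x K i) / n) atTop (𝓝 (E K))) :
    ∀ C : ℝ, ∃ K : ℕ, ∀ᶠ n : ℕ in atTop, C * n ≤ ∑ i ∈ Finset.range n, x K i := by
  intro C
  obtain ⟨K, hK⟩ := hE C
  refine ⟨K, ?_⟩
  filter_upwards [(hx K).eventually (lt_mem_nhds hK), eventually_gt_atTop 0] with n hn hn0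
  have hn0' : (0 : ℝ) < n := by exact_mod_cast hn0
  rw [lt_div_iff₀ hn0'] at hn
  exact hn.le

lemma ae_U : ∀ᵐ U ∂(Measure.infinitePi fun _ : ℤ × ℕ => (volume : Measure unitInterval)),
    ∀ a, U a < 1 := by
  rw [ae_all_iff]
  intro a
  have hmp := measurePreserving_eval_infinitePi (fun _ : ℤ × ℕ => (volume : Measure unitInterval)) a
  have h1 : ∀ᵐ t ∂(volume : Measure unitInterval), t < 1 := by
    have : ∀ᵐ t ∂(volume : Measure unitInterval), t ≠ 1 := by
      rw [ae_iff]
      simp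
    filter_upwards [this] with t ht
    exact lt_of_le_of_ne unitInterval.le_one' ht
  exact hmp.quasiMeasurePreserving.ae h1

/-- general criterion: infinite mean prefix lengths on both sides give speed zero -/
theorem speed_zero_ae (eta : Measure (ℕ → unitInterval)) [IsProbabilityMeasure eta]
    (h0 : ∀ C : ℝ, ∃ K, C < ∫ s, (pre 0 K s : ℝ) ∂eta)
    (h1 : ∀ C : ℝ, ∃ K, C < ∫ s, (pre 1 K s : ℝ) ∂eta) :
    ∀ᵐ z ∂(law eta), Tendsto (fun n : ℕ => (walk z.1 z.2 n : ℝ) / n) atTop (𝓝 0) := by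
  have hR : ∀ᵐ om ∂(Measure.infinitePi fun _ : ℤ => eta), ∀ K : ℕ,
      Tendsto (fun n : ℕ => (∑ i ∈ Finset.range n, (pre 0 K (om (i : ℤ)) : ℝ)) / n) atTop
        (𝓝 (∫ s, (pre 0 K s : ℝ) ∂eta)) := by
    rw [ae_all_iff]
    intro K
    exact lln eta 0 K (fun i => (i : ℤ)) Nat.cast_injective
  have hL : ∀ᵐ om ∂(Measure.infinitePi fun _ : ℤ => eta), ∀ K : ℕ,
      Tendsto (fun n : ℕ => (∑ i ∈ Finset.range n, (pre 1 K (om (-(i : ℤ))) : ℝ)) / n) atTop
        (𝓝 (∫ s, (pre 1 K s : ℝ) ∂eta)) := by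
    rw [ae_all_iff]
    intro K
    refine lln eta 1 K (fun i => -(i : ℤ)) ?_
    intro a b hab
    simp only at hab
    omega
  unfold law
  have e1 := Measure.quasiMeasurePreserving_fst
    (μ := Measure.infinitePi fun _ : ℤ => eta)
    (ν := Measure.infinitePi fun _ : ℤ × ℕ => (volume : Measure unitInterval)) |>.ae (hR.and hL)
  have e2 := Measure.quasiMeasurePreserving_snd
    (μ := Measure.infinitePi fun _ : ℤ => eta)
    (ν := Measure.infinitePi fun _ : ℤ × ℕ => (volume : Measure unitInterval)) |>.ae ae_U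
  filter_upwards [e1, e2] with z hz1 hz2
  exact speed_zero z.1 z.2 hz2 (from_lln _ _ h0 hz1.1) (from_lln _ _ h1 hz1.2)

end Pool.Agent.R957.Cookie
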