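import Mathlib
import Pool.Agent.R957.Cookie.Prob

namespace Pool.Agent.R957.Cookie

open MeasureTheory Filter ProbabilityTheory
open scoped Topology ENNReal

/-- `3/4` -/
noncomputable def c34 : unitInterval := ⟨3 / 4, by norm_num, by norm_num⟩
/-- `1/2` -/
noncomputable def c12 : unitInterval := ⟨1 / 2, by norm_num, by norm_num⟩

/-- the possible stacks -/
noncomputable def stk (J : ℕ) (a : Fin 3 × ℕ) (i : ℕ) : unitInterval :=
  if a.1 = 0 then (if i < J then c34 else c12)
  else if a.1 = 1 then (if i < 2 ^ a.2 then 0 else if i < 2 ^ (a.2 + 1) then 1 else c12)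
  else (if i < 2 ^ a.2 then 1 else if i < 2 ^ (a.2 + 1) then 0 else c12)

/-- weights `1/3 * 2^{-(k+1)}` -/
noncomputable def wt (a : Fin 3 × ℕ) : ℝ≥0∞ := 3⁻¹ * 2⁻¹ ^ (a.2 + 1)

lemma wt_sum : ∑' a, wt a = 1 := by
  have h1 : ∑' a : Fin 3 × ℕ, wt a = ∑' (i : Fin 3) (k : ℕ), (3 : ℝ≥0∞)⁻¹ * 2⁻¹ ^ (k + 1) :=
    ENNReal.tsum_prod (f := fun (i : Fin 3) (k : ℕ) => (3 : ℝ≥0∞)⁻¹ * 2⁻¹ ^ (k + 1))
  rw [h1]
  have h2 : ∑' k : ℕ, (2 : ℝ≥0∞)⁻¹ ^ (k + 1) = 1 := ENNReal.tsum_geometric_add_one _ |>.trans (by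
    rw [ENNReal.one_sub_inv_two, inv_inv]
    exact ENNReal.inv_mul_cancel (by norm_num) (by norm_num))
  have h3 : ∀ _ : Fin 3, ∑' k : ℕ, (3 : ℝ≥0∞)⁻¹ * 2⁻¹ ^ (k + 1) = 3⁻¹ := by
    intro _
    rw [ENNReal.tsum_mul_left, h2, mul_one]
  rw [tsum_congr h3, tsum_fintype]
  simp only [Finset.sum_const, Finset.card_univ, Fintype.card_fin, nsmul_eq_mul]
  exact ENNReal.mul_inv_cancel (by norm_num) (by norm_num)

/-- law of the type of a stack -/
noncomputable def base : PMF (Fin 3 × ℕ) := ⟨wt, by rw [← wt_sum]; exact ENNReal.summable.hasSum⟩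

/-- law of a stack -/
noncomputable def eta (J : ℕ) : Measure (ℕ → unitInterval) := base.toMeasure.map (stk J)

lemma meas_stk (J : ℕ) : Measurable (stk J) := Measurable.of_discrete

instance (J : ℕ) : IsProbabilityMeasure (eta J) :=
  Measure.isProbabilityMeasure_map (meas_stk J).aemeasurable

lemma ae_stk (J : ℕ) : ∀ᵐ s ∂(eta J), ∃ a, s = stk J a := by
  unfold eta
  rw [ae_map_iff (meas_stk J).aemeasurable]
  · exact Eventually.of_forall fun a => ⟨a, rfl⟩
  · have : {s : ℕ → unitInterval | ∃ a, s = stk J a} = Set.range (stk J) := by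
      ext s; simp [eq_comm]
    rw [this]
    exact (Set.countable_range _).measurableSet

lemma mass_zero (S : Set (ℕ → unitInterval)) (J : ℕ) (hS : MeasurableSet S)
    (h : ∀ k, stk J (0, k) ∈ S) : 0 < eta J S := by
  unfold eta
  rw [Measure.map_apply (meas_stk J) hS]
  calc (0 : ℝ≥0∞) < base (0, 0) := by
        change (0 : ℝ≥0∞) < wt (0, 0)
        unfold wt
        simp
    _ = base.toMeasure {(0, 0)} := (PMF.toMeasure_apply_singleton _ _ (MeasurableSet.singleton _)).symm
    _ ≤ base.toMeasure (stk J ⁻¹' S) := by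
        apply measure_mono
        rintro _ rfl
        exact h 0

lemma drift_zero (J k : ℕ) : drift (stk J (0, k)) = J / 2 := by
  unfold drift
  rw [tsum_eq_sum (s := Finset.range J)]
  · rw [Finset.sum_congr rfl (g := fun _ => (1 / 2 : ℝ))]
    · simp; ring
    · intro i hi
      simp only [stk, if_true, if_pos (Finset.mem_range.1 hi), c34]
      norm_num
  · intro i hi
    simp only [stk, if_true, if_neg (fun h => hi (Finset.mem_range.2 h)), c12]
    norm_num

lemma summable_stk (J : ℕ) (a : Fin 3 × ℕ) : Summable fun i => 2 * (stk J a i : ℝ) - 1 := by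
  apply summable_of_ne_finset_zero (s := Finset.range (J + 2 ^ (a.2 + 1)))
  intro i hi
  rw [Finset.mem_range, not_lt] at hi
  have hp : 0 < 2 ^ (a.2 + 1) := by positivity
  have h1 : ¬ i < J := by omega
  have h2 : ¬ i < 2 ^ (a.2 + 1) := by omega
  have h3 : ¬ i < 2 ^ a.2 := by
    have : 2 ^ a.2 ≤ 2 ^ (a.2 + 1) := Nat.pow_le_pow_right (by norm_num) (by omega)
    omega
  simp only [stk, if_neg h1, if_neg h2, if_neg h3, ite_self, c12]
  norm_num

lemma drift_one (J k : ℕ) : drift (stk J (1, k)) = 0 := by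
  unfold drift
  rw [tsum_eq_sum (s := Finset.range (2 ^ k + 2 ^ k))]
  · rw [Finset.sum_range_add]
    have h1 : ∑ x ∈ Finset.range (2 ^ k), (2 * (stk J (1, k) x : ℝ) - 1)
        = ∑ x ∈ Finset.range (2 ^ k), (-1 : ℝ) := by
      apply Finset.sum_congr rfl
      intro i hi
      simp [stk, Finset.mem_range.1 hi]
    have h2 : ∑ x ∈ Finset.range (2 ^ k), (2 * (stk J (1, k) (2 ^ k + x) : ℝ) - 1)
        = ∑ x ∈ Finset.range (2 ^ k), (1 : ℝ) := by
      apply Finset.sum_congr rfl
      intro i hi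
      have h3 : 2 ^ k + i < 2 ^ (k + 1) := by
        have := Finset.mem_range.1 hi
        rw [pow_succ]; omega
      simp [stk, h3]
      norm_num
    rw [h1, h2]
    simp
  · intro i hi
    have h2 : ¬ i < 2 ^ (k + 1) := by
      rw [Finset.mem_range] at hi
      rw [pow_succ]; omega
    have h3 : ¬ i < 2 ^ k := by
      rw [Finset.mem_range] at hi
      omega
    simp [stk, h2, h3, c12]

lemma drift_two (J k : ℕ) : drift (stk J (2, k)) = 0 := by
  unfold drift
  rw [tsum_eq_sum (s := Finset.range (2 ^ k + 2 ^ k))]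
  · rw [Finset.sum_range_add]
    have h1 : ∑ x ∈ Finset.range (2 ^ k), (2 * (stk J (2, k) x : ℝ) - 1)
        = ∑ x ∈ Finset.range (2 ^ k), (1 : ℝ) := by
      apply Finset.sum_congr rfl
      intro i hi
      simp [stk, Finset.mem_range.1 hi]
      norm_num
    have h2 : ∑ x ∈ Finset.range (2 ^ k), (2 * (stk J (2, k) (2 ^ k + x) : ℝ) - 1)
        = ∑ x ∈ Finset.range (2 ^ k), (-1 : ℝ) := by
      apply Finset.sum_congr rfl
      intro i hi
      have h3 : 2 ^ k + i < 2 ^ (k + 1) := by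
        have := Finset.mem_range.1 hi
        rw [pow_succ]; omega
      simp [stk, h3]
    rw [h1, h2]
    simp
  · intro i hi
    have h2 : ¬ i < 2 ^ (k + 1) := by
      rw [Finset.mem_range] at hi
      rw [pow_succ]; omega
    have h3 : ¬ i < 2 ^ k := by
      rw [Finset.mem_range] at hi
      omega
    simp [stk, h2, h3, c12]

lemma drift_stk (J : ℕ) (a : Fin 3 × ℕ) : drift (stk J a) = if a.1 = 0 then (J : ℝ) / 2 else 0 := by
  obtain ⟨i, k⟩ := a
  fin_cases i
  · simpa using drift_zero J k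
  · simpa using drift_one J k
  · simpa using drift_two J k

/-- a measurable version of the drift -/
noncomputable def drv (J : ℕ) (s : ℕ → unitInterval) : ℝ :=
  Set.indicator {s : ℕ → unitInterval | s 0 = c34} (fun _ => (J : ℝ) / 2) s

lemma c34_ne0 : c34 ≠ 0 := by
  intro h
  have := congrArg Subtype.val h
  simp [c34] at this

lemma c34_ne1 : c34 ≠ 1 := by
  intro h
  have := congrArg Subtype.val h
  simp [c34] at this
  norm_num at this

lemma drift_ae (J : ℕ) (hJ : 0 < J) : (fun s => drift s) =ᵐ[eta J] drv J := by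
  filter_upwards [ae_stk J] with s hs
  obtain ⟨a, rfl⟩ := hs
  rw [drift_stk]
  unfold drv
  obtain ⟨i, k⟩ := a
  have hp : 0 < 2 ^ k := by positivity
  fin_cases i
  · have : stk J (0, k) 0 = c34 := by simp [stk, hJ]
    simp [Set.indicator, this]
  · have : stk J (1, k) 0 = 0 := by simp [stk]
    simp [Set.indicator, this, c34_ne0.symm]
  · have : stk J (2, k) 0 = 1 := by simp [stk]
    simp [Set.indicator, this, c34_ne1.symm]

lemma meas_c34 : MeasurableSet {s : ℕ → unitInterval | s 0 = c34} :=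
  measurableSet_eq_fun (measurable_pi_apply 0) measurable_const

lemma drv_int (J : ℕ) : Integrable (drv J) (eta J) := by
  unfold drv
  exact (integrable_const _).indicator meas_c34

lemma mass_c34 (J : ℕ) (hJ : 0 < J) : (eta J).real {s : ℕ → unitInterval | s 0 = c34} = 1 / 3 := by
  rw [Measure.real]
  unfold eta
  rw [Measure.map_apply (meas_stk J) meas_c34]
  have h1 : stk J ⁻¹' {s : ℕ → unitInterval | s 0 = c34} = {a : Fin 3 × ℕ | a.1 = 0} := by
    ext ⟨i, k⟩
    have hp : 0 < 2 ^ k := by positivity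
    simp only [Set.mem_preimage, Set.mem_ofPred_eq]
    fin_cases i
    · simp [stk, hJ]
    · simp [stk, c34_ne0.symm]
    · simp [stk, c34_ne1.symm]
  rw [h1, PMF.toMeasure_apply_eq_tsum]
  have h2 : ∑' x : Fin 3 × ℕ, Set.indicator {a : Fin 3 × ℕ | a.1 = 0} base x
      = ∑' (i : Fin 3) (k : ℕ), if i = 0 then (3 : ℝ≥0∞)⁻¹ * 2⁻¹ ^ (k + 1) else 0 := by
    rw [← ENNReal.tsum_prod (f := fun (i : Fin 3) (k : ℕ) =>
      if i = 0 then (3 : ℝ≥0∞)⁻¹ * 2⁻¹ ^ (k + 1) else 0)]
    apply tsum_congr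
    rintro ⟨i, k⟩
    by_cases hi : i = 0
    · rw [Set.indicator_of_mem (show (i, k) ∈ {a : Fin 3 × ℕ | a.1 = 0} from hi), if_pos hi]
      rfl
    · rw [Set.indicator_of_notMem (show (i, k) ∉ {a : Fin 3 × ℕ | a.1 = 0} from hi), if_neg hi]
  have h3 : ∑' k : ℕ, (2 : ℝ≥0∞)⁻¹ ^ (k + 1) = 1 := ENNReal.tsum_geometric_add_one _ |>.trans (by
    rw [ENNReal.one_sub_inv_two, inv_inv]
    exact ENNReal.inv_mul_cancel (by norm_num) (by norm_num))
  rw [h2, tsum_eq_single 0]
  · simp only [if_true]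
    rw [ENNReal.tsum_mul_left, h3, mul_one, ENNReal.toReal_inv]
    norm_num
  · intro i hi
    simp [hi]

lemma pre_ge (a : unitInterval) (K L : ℕ) (s : ℕ → unitInterval) (hL : L ≤ K)
    (h : ∀ i < L, s i = a) : L ≤ pre a K s := by
  classical
  unfold pre
  calc L = (Finset.range L).card := (Finset.card_range L).symm
    _ ≤ _ := by
      apply Finset.card_le_card
      intro j hj
      rw [Finset.mem_range] at hj
      rw [Finset.mem_filter, Finset.mem_range]
      exact ⟨by omega, fun i hi => h i (by omega)⟩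

lemma int_large (J : ℕ) (a : unitInterval) (i0 : Fin 3)
    (h : ∀ k i, i < 2 ^ k → stk J (i0, k) i = a) (C : ℝ) :
    ∃ K, C < ∫ s, (pre a K s : ℝ) ∂(eta J) := by
  obtain ⟨r, hr⟩ := exists_nat_gt (6 * C)
  refine ⟨2 ^ r, lt_of_lt_of_le (show C < (r : ℝ) / 6 by linarith) ?_⟩
  unfold eta
  rw [integral_map (meas_stk J).aemeasurable (meas_pre a _).aestronglyMeasurable]
  have hint : Integrable (fun x => (pre a (2 ^ r) (stk J x) : ℝ)) base.toMeasure := by
    refine Integrable.of_bound (Measurable.of_discrete).aestronglyMeasurable ((2 ^ r : ℕ) : ℝ)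
      (Eventually.of_forall fun s => ?_)
    rw [Real.norm_of_nonneg (Nat.cast_nonneg _)]
    exact pre_bound a _ _
  rw [PMF.integral_eq_tsum _ _ hint]
  have hinj : Function.Injective fun k : ℕ => (i0, k) := by
    intro x y hxy
    simpa using hxy
  have hbase : ∀ x : Fin 3 × ℕ, (base x).toReal = 1 / 3 * (1 / 2) ^ (x.2 + 1) := by
    intro x
    change (wt x).toReal = _
    unfold wt
    rw [ENNReal.toReal_mul, ENNReal.toReal_pow, ENNReal.toReal_inv, ENNReal.toReal_inv]
    norm_num
  have hsum : Summable fun x => (base x).toReal • (pre a (2 ^ r) (stk J x) : ℝ) := by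
    have h1 : Summable fun x => (base x).toReal * ((2 ^ r : ℕ) : ℝ) := by
      apply Summable.mul_right
      exact ENNReal.summable_toReal (by rw [base.tsum_coe]; exact ENNReal.one_ne_top)
    apply Summable.of_nonneg_of_le _ _ h1
    · intro x
      exact mul_nonneg ENNReal.toReal_nonneg (Nat.cast_nonneg _)
    · intro x
      exact mul_le_mul_of_nonneg_left (pre_bound a _ _) ENNReal.toReal_nonneg
  calc (r : ℝ) / 6 = ∑ k ∈ Finset.range r, (1 / 6 : ℝ) := by simp; ring
    _ ≤ ∑ k ∈ Finset.range r, (base (i0, k)).toReal • (pre a (2 ^ r) (stk J (i0, k)) : ℝ) := by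
        apply Finset.sum_le_sum
        intro k hk
        have hk' : 2 ^ k ≤ 2 ^ r := Nat.pow_le_pow_right (by norm_num) (Finset.mem_range.1 hk).le
        have h1 : ((2 ^ k : ℕ) : ℝ) ≤ (pre a (2 ^ r) (stk J (i0, k)) : ℝ) := by
          exact_mod_cast pre_ge a _ _ _ hk' (h k)
        rw [hbase, smul_eq_mul]
        calc (1 / 6 : ℝ) = 1 / 3 * (1 / 2) ^ (k + 1) * ((2 ^ k : ℕ) : ℝ) := by
              push_cast
              rw [pow_succ, one_div_pow]
              field_simp
              norm_num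
          _ ≤ _ := mul_le_mul_of_nonneg_left h1 (by positivity)
    _ = ∑ x ∈ (Finset.range r).map ⟨_, hinj⟩, (base x).toReal • (pre a (2 ^ r) (stk J x) : ℝ) := by
        rw [Finset.sum_map]; rfl
    _ ≤ _ := hsum.sum_le_tsum _ fun x _ => mul_nonneg ENNReal.toReal_nonneg (Nat.cast_nonneg _)

/-- summary -/
theorem example_stack (J : ℕ) (hJ : 0 < J) :
    0 < eta J {s | ∀ n, 0 < s n} ∧ 0 < eta J {s | ∀ n, s n < 1} ∧
    (∀ᵐ s ∂(eta J), Summable fun i => 2 * (s i : ℝ) - 1) ∧
    Integrable drift (eta J) ∧ ∫ s, drift s ∂(eta J) = J / 6 ∧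
    ∀ᵐ z ∂(law (eta J)), Tendsto (fun n : ℕ => (walk z.1 z.2 n : ℝ) / n) atTop (𝓝 0) := by
  have hpos : ∀ k i, 0 < stk J (0, k) i := by
    intro k i
    simp only [stk, if_true]
    split_ifs
    · exact unitInterval.pos_iff_ne_zero.2 c34_ne0
    · rw [unitInterval.pos_iff_ne_zero]
      intro h
      have := congrArg Subtype.val h
      simp [c12] at this
  have hlt : ∀ k i, stk J (0, k) i < 1 := by
    intro k i
    simp only [stk, if_true]
    split_ifs
    · exact unitInterval.lt_one_iff_ne_one.2 c34_ne1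
    · rw [unitInterval.lt_one_iff_ne_one]
      intro h
      have := congrArg Subtype.val h
      simp [c12] at this
  refine ⟨?_, ?_, ?_, ?_, ?_, ?_⟩
  · refine mass_zero {s : ℕ → unitInterval | ∀ n, 0 < s n} J ?_ (fun k i => hpos k i)
    have : {s : ℕ → unitInterval | ∀ n, 0 < s n} = ⋂ n : ℕ, {s | 0 < s n} := by ext s; simp
    rw [this]
    exact MeasurableSet.iInter fun n => measurableSet_lt measurable_const (measurable_pi_apply n)
  · refine mass_zero {s : ℕ → unitInterval | ∀ n, s n < 1} J ?_ (fun k i => hlt k i)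
    have : {s : ℕ → unitInterval | ∀ n, s n < 1} = ⋂ n : ℕ, {s | s n < 1} := by ext s; simp
    rw [this]
    exact MeasurableSet.iInter fun n => measurableSet_lt (measurable_pi_apply n) measurable_const
  · filter_upwards [ae_stk J] with s hs
    obtain ⟨a, rfl⟩ := hs
    exact summable_stk J a
  · exact (drv_int J).congr (drift_ae J hJ).symm
  · rw [integral_congr_ae (drift_ae J hJ)]
    unfold drv
    rw [integral_indicator meas_c34, setIntegral_const, mass_c34 J hJ, smul_eq_mul]
    ring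
  · apply speed_zero_ae
    · exact int_large J 0 1 fun k i hi => by simp [stk, hi]
    · exact int_large J 1 2 fun k i hi => by simp [stk, hi]

end Pool.Agent.R957.Cookie
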